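import Pool.Agent.TH298.AN.Final
import Pool.Agent.TH298.AN.MODE
import Pool.Agent.TH298.AN.MODE01
import Pool.Agent.TH298.AN.ODEM
import Pool.Agent.TH298.AN.Pars2

/-!
# Schiffer's conjecture for all planar domains close to a disc: explicit windows

If the boundary of a bounded planar domain (no convexity, no regularity) lies in an annulus
`a ≤ |x - q| ≤ b` and no Bessel function `J_N` with `N ≥ 2` has a zero in `[√lam a, √lam b]`, then
the domain carries a nontrivial solution of (S) only if it is a disc.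
-/

set_option autoImplicit false

open MeasureTheory

namespace Pool.Agent.Results.MP_83fd13_an.AnnularDomains

/-- The overdetermined problem (S) in the plane `ℂ`: `-Δu = lam u` in `Ω`, `∂u/∂n = 0` on `∂Ω`,
`u = c` on `∂Ω` has a nontrivial weak solution `u` for some real constant `c`; `G` is the weak
gradient of `u`, and both boundary conditions are expressed by testing with functions that need not
vanish on `∂Ω`. -/
def Solvable (Ω : Set ℂ) (lam : ℝ) : Prop :=
  ∃ (c : ℝ) (u : ℂ → ℝ) (G : ℂ → ℂ),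
    MemLp u 2 (volume.restrict Ω) ∧ MemLp G 2 (volume.restrict Ω) ∧
    (∀ φ : ℂ → ℝ, ContDiff ℝ 1 φ → HasCompactSupport φ → ∀ v : ℂ,
      ∫ x in Ω, (u x - c) * (fderiv ℝ φ x v) = - ∫ x in Ω, @inner ℝ ℂ _ (G x) v * φ x) ∧
    (∀ φ : ℂ → ℝ, ContDiff ℝ 1 φ → HasCompactSupport φ →
      ∫ x in Ω, fderiv ℝ φ x (G x) = lam * ∫ x in Ω, u x * φ x) ∧
    ¬ (u =ᵐ[volume.restrict Ω] 0)

/-- The Bessel function `J_N`. -/
noncomputable def J (N : ℕ) (t : ℝ) : ℝ :=
  ∑' k : ℕ, (-1) ^ k / ((k.factorial : ℝ) * ((k + N).factorial : ℝ)) * (t / 2) ^ (2 * k + N)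

/-- Let `Ω` be a nonempty bounded open set with connected complement and null boundary, equal to the
interior of its closure, and let `B(q, a) ⊆ Ω ⊆ B(q, b)`, where `a ≥ 0` and no `J_N`, `N ≥ 2`, has a
positive zero in `[√lam a, √lam b]`. If (S) has a nontrivial solution on `Ω` for `lam > 0`, then `Ω`
is a disc, and its radius `r ∈ [a, b]` satisfies `J_1(√lam r) = 0`. -/
theorem result (Ω : Set ℂ) (ho : IsOpen Ω) (hb : Bornology.IsBounded Ω) (hne : Ω.Nonempty)
    (hco : IsConnected Ωᶜ) (hint : interior (closure Ω) = Ω) (hfr : volume (frontier Ω) = 0)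
    (lam : ℝ) (hlam : 0 < lam) (hS : Solvable Ω lam) (q : ℂ) (a b : ℝ) (ha : 0 ≤ a)
    (hin : Metric.ball q a ⊆ Ω) (hout : Ω ⊆ Metric.closedBall q b)
    (hJ : ∀ N : ℕ, 2 ≤ N → ∀ t : ℝ, 0 < t → Real.sqrt lam * a ≤ t → t ≤ Real.sqrt lam * b →
      J N t ≠ 0) :
    ∃ (p : ℂ) (r : ℝ), 0 < r ∧ a ≤ r ∧ r ≤ b ∧ Ω = Metric.ball p r ∧
      J 1 (Real.sqrt lam * r) = 0 := by
  obtain ⟨c, u, G, hu, hG, h1, h2, hu0⟩ := hS
  exact Pool.Agent.TH298.AN.annular_main Pool.Agent.TH298.AN.pars2 Pool.Agent.TH298.AN.mode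
    (Pool.Agent.TH298.AN.mode0 Pool.Agent.TH298.AN.mode)
    (Pool.Agent.TH298.AN.mode1 Pool.Agent.TH298.AN.mode) Pool.Agent.TH298.AN.odem
    ho hb hne hco.isPreconnected hint hfr hlam ha hin hout hJ ⟨hu, hG, h1, h2⟩ hu0

end Pool.Agent.Results.MP_83fd13_an.AnnularDomains
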