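import Pool.Agent.TH298.GB.Main

/-!
# Schiffer's conjecture for convex domains in the first frequency band

Brown and Kahane (1982): if a convex planar domain carries a nontrivial solution of (S), then all
its widths, multiplied by `√lam`, lie between `2πk` and `2π(k+1)` for one integer `k ≥ 1`. Here
the case `k = 1` is settled: the domain is a disc.
-/

set_option autoImplicit false

open MeasureTheory

namespace Pool.Agent.Results.MP_83fd13_an.ConvexFirstBand

/-- The overdetermined problem (S) in the plane `ℂ`: `-Δu = lam u` in `Ω`, `∂u/∂n = 0` on `∂Ω`,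
`u = c` on `∂Ω` has a nontrivial weak solution `u` for some real constant `c`; `G` is the weak
gradient of `u`, and both boundary conditions are expressed by testing with functions that need not
vanish on `∂Ω`. -/
def Solvable (Ω : Set ℂ) (lam : ℝ) : Prop :=
  ∃ (c : ℝ) (u : ℂ → ℝ) (G : ℂ → ℂ),
    MemLp u 2 (volume.restrict Ω) ∧ MemLp G 2 (volume.restrict Ω) ∧
    (∀ φ : ℂ → ℝ, ContDiff ℝ 1 φ → HasCompactSupport φ → ∀ v : ℂ,
      ∫ x in Ω, (u x - c) * (fderiv ℝ φ x v) = - ∫ x in Ω, @inner ℝ ℂ _ (G x) v * φ x) ∧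
    (∀ φ : ℂ → ℝ, ContDiff ℝ 1 φ → HasCompactSupport φ →
      ∫ x in Ω, fderiv ℝ φ x (G x) = lam * ∫ x in Ω, u x * φ x) ∧
    ¬ (u =ᵐ[volume.restrict Ω] 0)

/-- A bounded convex domain that carries a nontrivial solution of (S) for `lam > 0` and whose width
in some direction is less than `4π/√lam` is a disc. -/
theorem result (Ω : Set ℂ) (ho : IsOpen Ω) (hc : Convex ℝ Ω) (hb : Bornology.IsBounded Ω)
    (hne : Ω.Nonempty) (lam : ℝ) (hlam : 0 < lam) (hS : Solvable Ω lam)
    (e : ℂ) (he : ‖e‖ = 1) (w : ℝ) (hw : ∀ x ∈ Ω, ∀ y ∈ Ω, @inner ℝ ℂ _ e (x - y) ≤ w)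
    (hwl : Real.sqrt lam * w < 4 * Real.pi) :
    ∃ (p : ℂ) (r : ℝ), 0 < r ∧ Ω = Metric.ball p r := by
  obtain ⟨c, u, G, hu, hG, h1, h2, hu0⟩ := hS
  exact Pool.Agent.TH298.GB.first_band ho hc hb hne hlam he hw hwl ⟨hu, hG, h1, h2⟩ hu0

end Pool.Agent.Results.MP_83fd13_an.ConvexFirstBand
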