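import Pool.Agent.TH259.CO.Fin3

/-!
# Schiffer's conjecture for convex ovals, at all frequencies

Let `Ω` be a bounded open convex set of the plane, symmetric about `0`, let `ρ` be its inradius and
`σ` the half diagonal of the largest square with centre `0` in `Ω`. Suppose that every circle with
centre `0` and radius at most `min (7ρ/6) σ` meets `Ω` in a pair of antipodal open arcs (or
completely, or up to a pair of points). This holds for every convex domain which is symmetric about
both coordinate axes and whose boundary comes monotonically closer to `0` from the `x`-axis to the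
`y`-axis, and for many domains without an axis of symmetry; there is no condition on the larger
circles. If (S) has a nontrivial solution on `Ω` for some `lam > 0`, then `Ω` is a disc.
-/

set_option autoImplicit false

open MeasureTheory

namespace Pool.Agent.Results.MP_83fd13_an.ConvexOvals

/-- The overdetermined problem (S) in the plane `ℂ`: `-Δu = lam u` in `Ω`, `∂u/∂n = 0` on `∂Ω`,
`u = c` on `∂Ω` has a nontrivial weak solution `u` for some real constant `c`; `G` is the weak
gradient of `u`, and both boundary conditions are expressed by testing with functions that need not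
vanish on `∂Ω`. -/
def Solvable (Ω : Set ℂ) (lam : ℝ) : Prop :=
  ∃ (c : ℝ) (u : ℂ → ℝ) (G : ℂ → ℂ),
    MemLp u 2 (volume.restrict Ω) ∧ MemLp G 2 (volume.restrict Ω) ∧
    (∀ φ : ℂ → ℝ, ContDiff ℝ 1 φ → HasCompactSupport φ → ∀ v : ℂ,
      ∫ x in Ω, (u x - c) * (fderiv ℝ φ x v) = - ∫ x in Ω, @inner ℝ ℂ _ (G x) v * φ x) ∧
    (∀ φ : ℂ → ℝ, ContDiff ℝ 1 φ → HasCompactSupport φ →
      ∫ x in Ω, fderiv ℝ φ x (G x) = lam * ∫ x in Ω, u x * φ x) ∧
    ¬ (u =ᵐ[volume.restrict Ω] 0)

/-- The Bessel function `J_n` of the first kind, given by its power series. -/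
noncomputable def besselJ (n : ℕ) (t : ℝ) : ℝ :=
  ∑' k : ℕ, (-1) ^ k / ((k.factorial : ℝ) * ((k + n).factorial : ℝ)) * (t / 2) ^ (2 * k + n)

/-- The circle of radius `t` about `0` meets `Ω` in a set of the form `{z : s < |⟨v, z⟩|}`: a pair
of antipodal open arcs, or the empty set, or the whole circle, or the circle without a pair of
antipodal points. -/
def MeetsInArcs (Ω : Set ℂ) (t : ℝ) : Prop :=
  ∃ v : ℂ, ∃ s : ℝ, ∀ z : ℂ, ‖z‖ = t → (z ∈ Ω ↔ s < |@inner ℝ ℂ _ v z|)

/-- Some square with centre `0` inscribed in the circle of radius `t` has its vertices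
`z, iz, -z, -iz` in `Ω` (for sets `Ω` with `Ω = -Ω`). -/
def ContainsSquare (Ω : Set ℂ) (t : ℝ) : Prop :=
  ∃ z : ℂ, ‖z‖ = t ∧ z ∈ Ω ∧ Complex.I * z ∈ Ω

/-- Let `Ω` be a nonempty bounded open convex set of the plane, symmetric about `0`, such that every
circle about `0` whose radius `t` is at most `7/6` of the inradius (the disc of radius `6t/7` is
contained in `Ω`) and at most the half diagonal of the largest square with centre `0` in `Ω`
(`ContainsSquare` holds for all smaller radii) meets `Ω` in a pair of antipodal arcs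
(`MeetsInArcs`). If (S) has a nontrivial solution on `Ω` for some `lam > 0`, however large, then `Ω`
is a disc with centre `0` and a radius `r` such that `J_1(√lam r) = 0`. -/
theorem result : ∀ Ω : Set ℂ, IsOpen Ω → Bornology.IsBounded Ω → Ω.Nonempty → Convex ℝ Ω →
    (∀ x ∈ Ω, -x ∈ Ω) →
    (∀ t : ℝ, 0 < t → Metric.ball 0 (6 / 7 * t) ⊆ Ω →
      (∀ t' : ℝ, 0 < t' → t' < t → ContainsSquare Ω t') → MeetsInArcs Ω t) →
    ∀ lam : ℝ, 0 < lam → Solvable Ω lam →
    ∃ r : ℝ, 0 < r ∧ Ω = Metric.ball 0 r ∧ besselJ 1 (Real.sqrt lam * r) = 0 := by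
  intro Ω ho hb hne hcv hsym harc lam hlam hS
  obtain ⟨c, u, G, hu, hG, h1, h2, hu0⟩ := hS
  exact TH259.CO.ovals3 ho hcv hb hne hsym harc hlam ⟨hu, hG, h1, h2⟩ hu0

end Pool.Agent.Results.MP_83fd13_an.ConvexOvals
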