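import Pool.Agent.TH259.NA.Conv2

/-!
# Schiffer's conjecture for domains with an `n`-fold rotational symmetry

Let a bounded domain `Ω` of the plane, not necessarily convex, be invariant under the rotation by
`2π/n` about the origin, and let its boundary lie in the annulus `a ≤ |x| ≤ R`. If none of the
Bessel functions `J_n, J_{2n}, J_{3n}, ...` has a zero in `[√lam a, √lam R]` and `Ω` carries a
nontrivial solution of (S), then `Ω` is a disc.

For centrally symmetric convex domains this gives a disc whenever `√lam * diam Ω < 2 j_{4,1}`.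
-/

set_option autoImplicit false

open MeasureTheory

namespace Pool.Agent.Results.MP_83fd13_an.NFoldSymmetric

/-- The overdetermined problem (S) in the plane `ℂ`: `-Δu = lam u` in `Ω`, `∂u/∂n = 0` on `∂Ω`,
`u = c` on `∂Ω` has a nontrivial weak solution `u` for some real constant `c`; `G` is the weak
gradient of `u`, and both boundary conditions are expressed by testing with functions that need not
vanish on `∂Ω`. -/
def Solvable (Ω : Set ℂ) (lam : ℝ) : Prop :=
  ∃ (c : ℝ) (u : ℂ → ℝ) (G : ℂ → ℂ),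
    MemLp u 2 (volume.restrict Ω) ∧ MemLp G 2 (volume.restrict Ω) ∧
    (∀ φ : ℂ → ℝ, ContDiff ℝ 1 φ → HasCompactSupport φ → ∀ v : ℂ,
      ∫ x in Ω, (u x - c) * (fderiv ℝ φ x v) = - ∫ x in Ω, @inner ℝ ℂ _ (G x) v * φ x) ∧
    (∀ φ : ℂ → ℝ, ContDiff ℝ 1 φ → HasCompactSupport φ →
      ∫ x in Ω, fderiv ℝ φ x (G x) = lam * ∫ x in Ω, u x * φ x) ∧
    ¬ (u =ᵐ[volume.restrict Ω] 0)

/-- The Bessel function `J_n` of the first kind, given by its power series. -/
noncomputable def besselJ (n : ℕ) (t : ℝ) : ℝ :=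
  ∑' k : ℕ, (-1) ^ k / ((k.factorial : ℝ) * ((k + n).factorial : ℝ)) * (t / 2) ^ (2 * k + n)

/-- (1) Let `n ≥ 2` and let `Ω` be a nonempty bounded open set of the plane with connected
complement, equal to the interior of its closure, with a boundary of measure zero (all this holds
for the bounded simply connected domains with Lipschitz Jordan boundary). Let `Ω` be invariant under
the rotation by `2π/n` about the origin, and let `B(0, a) ⊆ Ω ⊆ B(0, R)`, where `a ≥ 0` and none of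
the functions `J_{kn}`, `k ≥ 1`, has a positive zero in `[√lam a, √lam R]`. If (S) has a nontrivial
solution on `Ω` for `lam > 0`, then `Ω` is a disc with centre `0`, and its radius `r ∈ [a, R]`
satisfies `J_1(√lam r) = 0`.

(2) If `Ω` is a nonempty bounded open convex set, symmetric about `0` and contained in `B(0, R)`,
and `J_4(t) ≠ 0` for `0 < t ≤ √lam R`, i.e. `√lam R < j_{4,1} = 7.588...`, the conclusion holds. -/
theorem result :
    (∀ n : ℕ, 2 ≤ n → ∀ Ω : Set ℂ, IsOpen Ω → Bornology.IsBounded Ω → Ω.Nonempty →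
      IsConnected Ωᶜ → interior (closure Ω) = Ω → volume (frontier Ω) = 0 →
      (∀ x ∈ Ω, Complex.exp ((2 * Real.pi / n : ℝ) * Complex.I) * x ∈ Ω) →
      ∀ lam : ℝ, 0 < lam → Solvable Ω lam → ∀ a R : ℝ, 0 ≤ a → Metric.ball 0 a ⊆ Ω →
      (∀ x ∈ Ω, ‖x‖ ≤ R) →
      (∀ k : ℕ, 1 ≤ k → ∀ t : ℝ, 0 < t → Real.sqrt lam * a ≤ t → t ≤ Real.sqrt lam * R →
        besselJ (k * n) t ≠ 0) →
      ∃ r : ℝ, 0 < r ∧ a ≤ r ∧ r ≤ R ∧ Ω = Metric.ball 0 r ∧ besselJ 1 (Real.sqrt lam * r) = 0) ∧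
    (∀ Ω : Set ℂ, IsOpen Ω → Bornology.IsBounded Ω → Ω.Nonempty → Convex ℝ Ω →
      (∀ x ∈ Ω, -x ∈ Ω) →
      ∀ lam : ℝ, 0 < lam → Solvable Ω lam → ∀ R : ℝ, (∀ x ∈ Ω, ‖x‖ ≤ R) →
      (∀ t : ℝ, 0 < t → t ≤ Real.sqrt lam * R → besselJ 4 t ≠ 0) →
      ∃ r : ℝ, 0 < r ∧ r ≤ R ∧ Ω = Metric.ball 0 r ∧ besselJ 1 (Real.sqrt lam * r) = 0) := by
  refine ⟨?_, ?_⟩
  · intro n hn Ω ho hb hne hco hint hfr hs lam hlam hS a R ha hin hR hJ
    obtain ⟨c, u, G, hu, hG, h1, h2, hu0⟩ := hS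
    exact TH259.NA.ann_final (by omega) ho hb hne hco.isPreconnected hint hfr hs hlam ha hin hR hJ
      ⟨hu, hG, h1, h2⟩ hu0
  · intro Ω ho hb hne hcv hsym lam hlam hS R hR hJ
    obtain ⟨c, u, G, hu, hG, h1, h2, hu0⟩ := hS
    exact TH259.NA.conv2 ho hcv hb hne hsym hlam hR hJ ⟨hu, hG, h1, h2⟩ hu0

end Pool.Agent.Results.MP_83fd13_an.NFoldSymmetric
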